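import Pool.Agent.Helper55.SCH.Goals

/-!
Packet SCH-NPC (author helper55, MP_c13f7d_co): number of pairs.
-/

namespace Pool.Agent.Helper86.SCH

open Finset Pool.Agent.Helper55.SCH

theorem NP_eq (c u : ℕ) : NP c u = ∑ x ∈ Icc 1 c, (u - x) := by
  unfold NP
  rw [Finset.card_filter, Finset.sum_product]
  refine Finset.sum_congr rfl fun x _ => ?_
  rw [← Finset.card_filter]
  have : (Icc 1 u).filter (fun y => x + y ≤ u) = Icc 1 (u - x) := by
    ext y
    simp only [Finset.mem_filter, Finset.mem_Icc]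
    omega
  rw [this, Nat.card_Icc]
  omega

theorem sum_sub (u : ℕ) : ∀ c : ℕ, c ≤ u →
    (∑ x ∈ Icc 1 c, (((u - x : ℕ)) : ℝ)) = c * u - c * (c + 1) / 2 := by
  intro c
  induction c with
  | zero => intro _; simp
  | succ c ih =>
    intro h
    rw [Finset.sum_Icc_succ_top (by omega), ih (by omega), Nat.cast_sub h]
    push_cast
    ring

theorem sum_ext (u c : ℕ) (h : u ≤ c) :
    (∑ x ∈ Icc 1 c, (((u - x : ℕ)) : ℝ)) = ∑ x ∈ Icc 1 u, (((u - x : ℕ)) : ℝ) := by
  induction c, h using Nat.le_induction with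
  | base => rfl
  | succ c h ih =>
    rw [Finset.sum_Icc_succ_top (by omega), ih, Nat.sub_eq_zero_of_le (by omega)]
    simp

theorem goalNPC : G_NPC := by
  constructor
  · intro c u h
    rw [NP_eq, Nat.cast_sum, sum_ext u c h, sum_sub u u le_rfl]
    ring
  · intro c
    rw [NP_eq, Nat.cast_sum, sum_sub (2 * c) c (by omega)]
    push_cast
    ring

end Pool.Agent.Helper86.SCH
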